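import Mathlib
import Pool.Agent.H239R2.Cover.PlanarDefs

set_option autoImplicit false

/-! Two kinds of straight-line drawings. -/

namespace Pool.Agent.K1H51.BT

open Pool.Agent.H239R2.Planar (HasStraightLineDrawing)

variable {V : Type}

/-- the segments `uv` and `xy` meet at most in a common end -/
def Cross (p : V → ℝ × ℝ) (u v x y : V) : Prop :=
  ∀ q, q ∈ segment ℝ (p u) (p v) → q ∈ segment ℝ (p x) (p y) → ∃ w, (w = u ∨ w = v) ∧ (w = x ∨ w = y) ∧ q = p w

lemma Cross.swap1 {p : V → ℝ × ℝ} {u v x y : V} (h : Cross p u v x y) : Cross p v u x y := by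
  intro q h1 h2
  rw [segment_symm] at h1
  obtain ⟨w, a, b, c⟩ := h q h1 h2
  exact ⟨w, a.symm, b, c⟩

lemma Cross.swap2 {p : V → ℝ × ℝ} {u v x y : V} (h : Cross p u v x y) : Cross p u v y x := by
  intro q h1 h2
  rw [segment_symm] at h2
  obtain ⟨w, a, b, c⟩ := h q h1 h2
  exact ⟨w, a, b.symm, c⟩

lemma Cross.swap3 {p : V → ℝ × ℝ} {u v x y : V} (h : Cross p x y u v) : Cross p u v x y := by
  intro q h1 h2
  obtain ⟨w, a, b, c⟩ := h q h2 h1
  exact ⟨w, b, a, c⟩

/-- it suffices to consider the edges in one direction, if there are no isolated vertices -/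
lemma drawing_of (G : SimpleGraph V) (p : V → ℝ × ℝ) (hp : Function.Injective p) (hdeg : ∀ w, ∃ z, G.Adj w z)
    (O : V → V → Prop) (hO : ∀ u v, G.Adj u v → O u v ∨ O v u)
    (hc : ∀ u v x y, O u v → O x y → s(u, v) ≠ s(x, y) → Cross p u v x y) : HasStraightLineDrawing G := by
  have h3 : ∀ u v x y : V, G.Adj u v → G.Adj x y → s(u, v) ≠ s(x, y) → Cross p u v x y := by
    intro u v x y h1 h2 hne
    rcases hO u v h1 with a | a <;> rcases hO x y h2 with b | b
    · exact hc u v x y a b hne
    · exact (hc u v y x a b (by rw [Sym2.eq_swap (a := y)]; exact hne)).swap2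
    · exact (hc v u x y a b (by rw [Sym2.eq_swap (a := v)]; exact hne)).swap1
    · exact (hc v u y x a b (by rw [Sym2.eq_swap (a := y), Sym2.eq_swap (a := v)]; exact hne)).swap1.swap2
  refine ⟨p, hp, ?_, fun u v x y h1 h2 hne => h3 u v x y h1 h2 hne⟩
  intro u v w huv hw
  by_contra hcon
  push Not at hcon
  obtain ⟨z, hz⟩ := hdeg w
  have hne : s(u, v) ≠ s(w, z) := by
    intro h
    rw [Sym2.eq_iff] at h
    rcases h with ⟨h1, _⟩ | ⟨_, h1⟩
    · exact hcon.1 h1.symm
    · exact hcon.2 h1.symm
  obtain ⟨w', a, b, c⟩ := h3 u v w z huv hz hne (p w) hw (left_mem_segment ℝ _ _)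
  have := hp c
  rcases a with a | a
  · exact hcon.1 (this.trans a)
  · exact hcon.2 (this.trans a)

lemma seg_iff (a b q : ℝ × ℝ) : q ∈ segment ℝ a b ↔ ∃ t : ℝ, 0 ≤ t ∧ t ≤ 1 ∧ q.1 = (1 - t) * a.1 + t * b.1 ∧ q.2 = (1 - t) * a.2 + t * b.2 := by
  constructor
  · rintro ⟨c, d, hc, hd, hcd, rfl⟩
    refine ⟨d, hd, by linarith, ?_, ?_⟩
    · simp only [Prod.fst_add, Prod.smul_fst, smul_eq_mul]
      rw [← hcd]
      ring
    · simp only [Prod.snd_add, Prod.smul_snd, smul_eq_mul]
      rw [← hcd]
      ring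
  · rintro ⟨t, h0, h1, e1, e2⟩
    refine ⟨1 - t, t, by linarith, h0, by ring, ?_⟩
    apply Prod.ext
    · simp only [Prod.fst_add, Prod.smul_fst, smul_eq_mul]
      exact e1.symm
    · simp only [Prod.snd_add, Prod.smul_snd, smul_eq_mul]
      exact e2.symm

/-- all vertices on the two axes -/
theorem axis_drawing (G : SimpleGraph V) (onY : V → Bool) (z : V → ℤ) (b : ℤ) (hb : 0 < b)
    (hdeg : ∀ w, ∃ x, G.Adj w x)
    (hinj : ∀ u v, onY u = onY v → z u = z v → u = v)
    (hY : ∀ v, onY v = true → -3 ≤ z v ∧ z v ≤ b)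
    (hX : ∀ v, onY v = false → z v = -1 ∨ 1 ≤ z v)
    (hadj : ∀ u v, G.Adj u v → (onY u = true ∧ onY v = true ∧ (z u = z v + 1 ∨ z v = z u + 1)) ∨
      (onY u = true ∧ onY v = false ∧ (z v ≤ 1 ∨ z u = b ∨ z u = -3)) ∨
      (onY u = false ∧ onY v = true ∧ (z u ≤ 1 ∨ z v = b ∨ z v = -3))) : HasStraightLineDrawing G := by
  obtain ⟨p, hpd⟩ : ∃ p : V → ℝ × ℝ, p = fun v => if onY v = true then ((0 : ℝ), (z v : ℝ)) else ((z v : ℝ), (0 : ℝ)) := ⟨_, rfl⟩
  have pY : ∀ v, onY v = true → p v = ((0 : ℝ), (z v : ℝ)) := by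
    intro v hv
    rw [hpd]
    dsimp only
    rw [if_pos hv]
  have pX : ∀ v, onY v = false → p v = ((z v : ℝ), (0 : ℝ)) := by
    intro v hv
    rw [hpd]
    dsimp only
    rw [if_neg (by rw [hv]; simp)]
  have zX : ∀ v, onY v = false → (z v : ℝ) ≠ 0 := by
    intro v hv h
    have h1 : z v = 0 := by exact_mod_cast h
    rcases hX v hv with h2 | h2 <;> omega
  refine drawing_of G p ?_ hdeg (fun u v => (onY u = true ∧ onY v = false ∧ (z v ≤ 1 ∨ z u = b ∨ z u = -3)) ∨
      (onY u = true ∧ onY v = true ∧ z v = z u + 1)) ?_ ?_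
  · -- injectivity
    intro u v h
    rcases Bool.eq_false_or_eq_true (onY u) with hu | hu <;> rcases Bool.eq_false_or_eq_true (onY v) with hv | hv
    · rw [pY u hu, pY v hv] at h
      have h' : ((z u : ℤ) : ℝ) = z v := (Prod.ext_iff.1 h).2
      exact hinj u v (by rw [hu, hv]) (by exact_mod_cast h')
    · rw [pY u hu, pX v hv] at h
      exact absurd ((Prod.ext_iff.1 h).1).symm (zX v hv)
    · rw [pX u hu, pY v hv] at h
      exact absurd ((Prod.ext_iff.1 h).1) (zX u hu)
    · rw [pX u hu, pX v hv] at h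
      have h' : ((z u : ℤ) : ℝ) = z v := (Prod.ext_iff.1 h).1
      exact hinj u v (by rw [hu, hv]) (by exact_mod_cast h')
  · intro u v h
    rcases hadj u v h with ⟨h1, h2, h3⟩ | h1 | ⟨h1, h2, h3⟩
    · rcases h3 with h3 | h3
      · exact Or.inr (Or.inr ⟨h2, h1, h3⟩)
      · exact Or.inl (Or.inr ⟨h1, h2, h3⟩)
    · exact Or.inl (Or.inl h1)
    · exact Or.inr (Or.inl ⟨h2, h1, h3⟩)
  · -- the case of a slanted and a vertical edge
    have hAB : ∀ u v x y, onY u = true → onY v = false → onY x = true → onY y = true → z y = z x + 1 → Cross p u v x y := by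
      intro u v x y hu hv hx hy hxy q hq1 hq2
      rw [seg_iff, pY u hu, pX v hv] at hq1
      rw [seg_iff, pY x hx, pY y hy] at hq2
      obtain ⟨t, t0, t1, e1, e2⟩ := hq1
      obtain ⟨t', t0', t1', e1', e2'⟩ := hq2
      dsimp only at e1 e2 e1' e2'
      have h1 : t * (z v : ℝ) = 0 := by linarith
      have h2 : t = 0 := by
        rcases mul_eq_zero.1 h1 with h | h
        · exact h
        · exact absurd h (zX v hv)
      subst h2
      have hq : q = p u := by
        rw [pY u hu]
        apply Prod.ext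
        · rw [e1]; ring
        · rw [e2]; ring
      have h3 : (z u : ℝ) = z x + t' := by
        have h4 : ((z y : ℤ) : ℝ) = z x + 1 := by exact_mod_cast hxy
        rw [e2] at e2'
        rw [h4] at e2'
        linarith
      have h5 : z x ≤ z u := by
        have : (z x : ℝ) ≤ z u := by linarith
        exact_mod_cast this
      have h6 : z u ≤ z x + 1 := by
        have : (z u : ℝ) ≤ z x + 1 := by linarith
        exact_mod_cast this
      rcases (by omega : z u = z x ∨ z u = z y) with h | h
      · exact ⟨u, Or.inl rfl, Or.inl (hinj u x (by rw [hu, hx]) h), hq⟩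
      · exact ⟨u, Or.inl rfl, Or.inr (hinj u y (by rw [hu, hy]) h), hq⟩
    have hAAlt : ∀ u v x y, onY u = true → onY v = false → onY x = true → onY y = false →
        (z y ≤ 1 ∨ z x = b ∨ z x = -3) → z v < z y → s(u, v) ≠ s(x, y) → Cross p u v x y := by
      intro u v x y hu hv hx hy hcy hlt hne q hq1 hq2
      rw [seg_iff, pY u hu, pX v hv] at hq1
      rw [seg_iff, pY x hx, pX y hy] at hq2
      obtain ⟨t, t0, t1, e1, e2⟩ := hq1
      obtain ⟨t', t0', t1', e1', e2'⟩ := hq2
      dsimp only at e1 e2 e1' e2'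
      have f1 : t * (z v : ℝ) = t' * z y := by linarith
      have f2 : (1 - t) * (z u : ℝ) = (1 - t') * z x := by linarith
      have zv := zX v hv
      have zy := zX y hy
      -- if one parameter is zero
      have hzero : t = 0 → ∃ w, (w = u ∨ w = v) ∧ (w = x ∨ w = y) ∧ q = p w := by
        intro ht
        subst ht
        have ht' : t' = 0 := by
          have : t' * (z y : ℝ) = 0 := by linarith
          rcases mul_eq_zero.1 this with h | h
          · exact h
          · exact absurd h zy
        subst ht'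
        have h1 : z u = z x := by
          have : (z u : ℝ) = z x := by linarith
          exact_mod_cast this
        refine ⟨u, Or.inl rfl, Or.inl (hinj u x (by rw [hu, hx]) h1), ?_⟩
        rw [pY u hu]
        apply Prod.ext
        · rw [e1]; ring
        · rw [e2]; ring
      rcases eq_or_lt_of_le t0 with ht | ht
      · exact hzero ht.symm
      rcases eq_or_lt_of_le t0' with ht' | ht'
      · apply hzero
        rw [← ht', zero_mul] at f1
        rcases mul_eq_zero.1 f1 with h | h
        · exact h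
        · exact absurd h zv
      exfalso
      rcases hX v hv with h1 | h1
      · -- `z v = -1`, then `z y ≥ 1`
        have h2 : (z v : ℝ) = -1 := by exact_mod_cast h1
        have h3 : (1 : ℝ) ≤ z y := by
          rcases hX y hy with h | h
          · omega
          · exact_mod_cast h
        rw [h2] at f1
        nlinarith
      · have h2 : (1 : ℝ) ≤ z v := by exact_mod_cast h1
        have h3 : (z v : ℝ) + 1 ≤ z y := by exact_mod_cast hlt
        have h4 : t' < t := by
          by_contra hcon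
          push Not at hcon
          nlinarith
        have h5 := hY u hu
        have h6 : (-3 : ℝ) ≤ z u := by exact_mod_cast h5.1
        have h7 : (z u : ℝ) ≤ b := by exact_mod_cast h5.2
        have hb' : (0 : ℝ) < b := by exact_mod_cast hb
        rcases hcy with h | h | h
        · omega
        · rw [h] at f2
          nlinarith
        · have h8 : (z x : ℝ) = -3 := by exact_mod_cast h
          rw [h8] at f2
          nlinarith
    have hAA : ∀ u v x y, onY u = true → onY v = false → (z v ≤ 1 ∨ z u = b ∨ z u = -3) → onY x = true → onY y = false →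
        (z y ≤ 1 ∨ z x = b ∨ z x = -3) → s(u, v) ≠ s(x, y) → Cross p u v x y := by
      intro u v x y hu hv hcv hx hy hcy hne
      rcases lt_trichotomy (z v) (z y) with h | h | h
      · exact hAAlt u v x y hu hv hx hy hcy h hne
      · have hvy : v = y := hinj v y (by rw [hv, hy]) h
        subst hvy
        intro q hq1 hq2
        rw [seg_iff, pY u hu, pX v hv] at hq1
        rw [seg_iff, pY x hx, pX v hv] at hq2
        obtain ⟨t, t0, t1, e1, e2⟩ := hq1
        obtain ⟨t', t0', t1', e1', e2'⟩ := hq2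
        dsimp only at e1 e2 e1' e2'
        have f1 : t * (z v : ℝ) = t' * z v := by linarith
        have zv := zX v hv
        have ht : t = t' := mul_right_cancel₀ zv f1
        subst ht
        have f2 : (1 - t) * ((z u : ℝ) - z x) = 0 := by linarith
        rcases mul_eq_zero.1 f2 with h1 | h1
        · have ht : t = 1 := by linarith
          subst ht
          refine ⟨v, Or.inr rfl, Or.inr rfl, ?_⟩
          rw [pX v hv]
          apply Prod.ext
          · rw [e1]; ring
          · rw [e2]; ring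
        · exfalso
          apply hne
          have h2 : z u = z x := by
            have : (z u : ℝ) = z x := by linarith
            exact_mod_cast this
          rw [hinj u x (by rw [hu, hx]) h2]
      · exact (hAAlt x y u v hx hy hu hv hcv h hne.symm).swap3
    have hBB : ∀ u v x y, onY u = true → onY v = true → z v = z u + 1 → onY x = true → onY y = true → z y = z x + 1 →
        z u < z x → Cross p u v x y := by
      intro u v x y hu hv huv hx hy hxy hlt q hq1 hq2
      rw [seg_iff, pY u hu, pY v hv] at hq1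
      rw [seg_iff, pY x hx, pY y hy] at hq2
      obtain ⟨t, t0, t1, e1, e2⟩ := hq1
      obtain ⟨t', t0', t1', e1', e2'⟩ := hq2
      dsimp only at e1 e2 e1' e2'
      have g1 : (z v : ℝ) = z u + 1 := by exact_mod_cast huv
      have g2 : (z y : ℝ) = z x + 1 := by exact_mod_cast hxy
      have g3 : (z u : ℝ) + 1 ≤ z x := by exact_mod_cast hlt
      rw [g1] at e2
      rw [g2] at e2'
      have f1 : (z u : ℝ) + t = z x + t' := by linarith
      have ht : t = 1 := by linarith
      have h1 : z v = z x := by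
        have : (z v : ℝ) = z x := by linarith
        exact_mod_cast this
      refine ⟨v, Or.inr rfl, Or.inl (hinj v x (by rw [hv, hx]) h1), ?_⟩
      rw [pY v hv]
      apply Prod.ext
      · rw [e1]; ring
      · dsimp only
        rw [e2, ht, g1]; ring
    intro u v x y h1 h2 hne
    rcases h1 with ⟨hu, hv, hcv⟩ | ⟨hu, hv, huv⟩ <;> rcases h2 with ⟨hx, hy, hcy⟩ | ⟨hx, hy, hxy⟩
    · exact hAA u v x y hu hv hcv hx hy hcy hne
    · exact hAB u v x y hu hv hx hy hxy
    · exact (hAB x y u v hx hy hu hv huv).swap3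
    · rcases lt_trichotomy (z u) (z x) with h | h | h
      · exact hBB u v x y hu hv huv hx hy hxy h
      · exfalso
        apply hne
        rw [hinj u x (by rw [hu, hx]) h, hinj v y (by rw [hv, hy]) (by omega)]
      · exact (hBB x y u v hx hy hxy hu hv huv h).swap3

/-- four columns -/
theorem theta_drawing (G : SimpleGraph V) (col h : V → ℤ) (hdeg : ∀ w, ∃ x, G.Adj w x)
    (hinj : ∀ u v, col u = col v → h u = h v → u = v)
    (h0 : ∀ v, (col v = -2 ∨ col v = 2) → h v = 0)
    (h1 : ∀ v, (col v = -1 ∨ col v = 1) → 1 ≤ h v)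
    (hadj : ∀ u v, G.Adj u v → ((col u = -2 ∧ col v = -1) ∨ (col u = -1 ∧ col v = 1 ∧ h u = h v) ∨ (col u = 1 ∧ col v = 2) ∨
      (col u = -2 ∧ col v = 2)) ∨ ((col v = -2 ∧ col u = -1) ∨ (col v = -1 ∧ col u = 1 ∧ h v = h u) ∨ (col v = 1 ∧ col u = 2) ∨
      (col v = -2 ∧ col u = 2))) : HasStraightLineDrawing G := by
  obtain ⟨p, hpd⟩ : ∃ p : V → ℝ × ℝ, p = fun v => ((col v : ℝ), (h v : ℝ)) := ⟨_, rfl⟩
  refine drawing_of G p ?_ hdeg (fun u v => (col u = -2 ∧ col v = -1) ∨ (col u = -1 ∧ col v = 1 ∧ h u = h v) ∨ (col u = 1 ∧ col v = 2) ∨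
      (col u = -2 ∧ col v = 2)) hadj ?_
  · intro u v huv
    rw [hpd] at huv
    have h' : ((col u : ℤ) : ℝ) = col v := (Prod.ext_iff.1 huv).1
    have h'' : ((h u : ℤ) : ℝ) = h v := (Prod.ext_iff.1 huv).2
    exact hinj u v (by exact_mod_cast h') (by exact_mod_cast h'')
  · -- the cases
    have key : ∀ u v x y q, q ∈ segment ℝ (p u) (p v) → q ∈ segment ℝ (p x) (p y) → ∃ t t' : ℝ, 0 ≤ t ∧ t ≤ 1 ∧ 0 ≤ t' ∧ t' ≤ 1 ∧
        (1 - t) * (col u : ℝ) + t * col v = (1 - t') * col x + t' * col y ∧
        (1 - t) * (h u : ℝ) + t * h v = (1 - t') * h x + t' * h y ∧ (t = 0 → q = p u) ∧ (t = 1 → q = p v) := by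
      intro u v x y q hq1 hq2
      rw [seg_iff] at hq1 hq2
      obtain ⟨t, t0, t1, e1, e2⟩ := hq1
      obtain ⟨t', t0', t1', e1', e2'⟩ := hq2
      rw [hpd] at e1 e2 e1' e2'
      dsimp only at e1 e2 e1' e2'
      refine ⟨t, t', t0, t1, t0', t1', by rw [← e1, ← e1'], by rw [← e2, ← e2'], ?_, ?_⟩
      · intro ht
        rw [hpd]
        apply Prod.ext
        · dsimp only; rw [e1, ht]; ring
        · dsimp only; rw [e2, ht]; ring
      · intro ht
        rw [hpd]
        apply Prod.ext
        · dsimp only; rw [e1, ht]; ring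
        · dsimp only; rw [e2, ht]; ring
    -- unordered pairs of types
    have c11 : ∀ u v x y, col u = -2 → col v = -1 → col x = -2 → col y = -1 → s(u, v) ≠ s(x, y) → Cross p u v x y := by
      intro u v x y a1 a2 b1 b2 hne q hq1 hq2
      obtain ⟨t, t', t0, t1, t0', t1', e1, e2, f0, f1⟩ := key u v x y q hq1 hq2
      rw [a1, a2, b1, b2] at e1
      have hu0 := h0 u (Or.inl a1)
      have hx0 := h0 x (Or.inl b1)
      rw [hu0, hx0] at e2
      push_cast at e1 e2
      have ht : t = t' := by linarith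
      subst ht
      have hux : u = x := hinj u x (by rw [a1, b1]) (by rw [hu0, hx0])
      have f2 : t * ((h v : ℝ) - h y) = 0 := by linarith
      rcases mul_eq_zero.1 f2 with h2 | h2
      · exact ⟨u, Or.inl rfl, Or.inl hux, f0 h2⟩
      · exfalso
        apply hne
        have h3 : h v = h y := by
          have : (h v : ℝ) = h y := by linarith
          exact_mod_cast this
        rw [hux, hinj v y (by rw [a2, b2]) h3]
    have c12 : ∀ u v x y, col u = -2 → col v = -1 → col x = -1 → col y = 1 → h x = h y → Cross p u v x y := by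
      intro u v x y a1 a2 b1 b2 b3 q hq1 hq2
      obtain ⟨t, t', t0, t1, t0', t1', e1, e2, f0, f1⟩ := key u v x y q hq1 hq2
      rw [a1, a2, b1, b2] at e1
      push_cast at e1
      have ht : t = 1 := by linarith
      have ht' : t' = 0 := by linarith
      rw [ht, ht'] at e2
      have h3 : h v = h x := by
        have : (h v : ℝ) = h x := by linarith
        exact_mod_cast this
      exact ⟨v, Or.inr rfl, Or.inl (hinj v x (by rw [a2, b1]) h3), f1 ht⟩
    have c13 : ∀ u v x y, col u = -2 → col v = -1 → col x = 1 → col y = 2 → Cross p u v x y := by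
      intro u v x y a1 a2 b1 b2 q hq1 hq2
      obtain ⟨t, t', t0, t1, t0', t1', e1, e2, f0, f1⟩ := key u v x y q hq1 hq2
      rw [a1, a2, b1, b2] at e1
      push_cast at e1
      exfalso
      linarith
    have c14 : ∀ u v x y, col u = -2 → col v = -1 → col x = -2 → col y = 2 → Cross p u v x y := by
      intro u v x y a1 a2 b1 b2 q hq1 hq2
      obtain ⟨t, t', t0, t1, t0', t1', e1, e2, f0, f1⟩ := key u v x y q hq1 hq2
      have hu0 := h0 u (Or.inl a1)
      have hx0 := h0 x (Or.inl b1)
      have hy0 := h0 y (Or.inr b2)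
      have hv1 := h1 v (Or.inl a2)
      rw [hu0, hx0, hy0] at e2
      push_cast at e2
      have h2 : t * (h v : ℝ) = 0 := by linarith
      have hv1' : (1 : ℝ) ≤ h v := by exact_mod_cast hv1
      have ht : t = 0 := by
        rcases mul_eq_zero.1 h2 with h | h
        · exact h
        · exfalso; linarith
      exact ⟨u, Or.inl rfl, Or.inl (hinj u x (by rw [a1, b1]) (by rw [hu0, hx0])), f0 ht⟩
    have c22 : ∀ u v x y, col u = -1 → col v = 1 → h u = h v → col x = -1 → col y = 1 → h x = h y → s(u, v) ≠ s(x, y) →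
        Cross p u v x y := by
      intro u v x y a1 a2 a3 b1 b2 b3 hne q hq1 hq2
      obtain ⟨t, t', t0, t1, t0', t1', e1, e2, f0, f1⟩ := key u v x y q hq1 hq2
      exfalso
      apply hne
      rw [← a3, ← b3] at e2
      have h3 : h u = h x := by
        have : (h u : ℝ) = h x := by linarith
        exact_mod_cast this
      rw [hinj u x (by rw [a1, b1]) h3, hinj v y (by rw [a2, b2]) (by rw [← a3, ← b3, h3])]
    have c23 : ∀ u v x y, col u = -1 → col v = 1 → h u = h v → col x = 1 → col y = 2 → Cross p u v x y := by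
      intro u v x y a1 a2 a3 b1 b2 q hq1 hq2
      obtain ⟨t, t', t0, t1, t0', t1', e1, e2, f0, f1⟩ := key u v x y q hq1 hq2
      rw [a1, a2, b1, b2] at e1
      push_cast at e1
      have ht : t = 1 := by linarith
      have ht' : t' = 0 := by linarith
      rw [ht, ht'] at e2
      have h3 : h v = h x := by
        have : (h v : ℝ) = h x := by linarith
        exact_mod_cast this
      exact ⟨v, Or.inr rfl, Or.inl (hinj v x (by rw [a2, b1]) h3), f1 ht⟩
    have c24 : ∀ u v x y, col u = -1 → col v = 1 → h u = h v → col x = -2 → col y = 2 → Cross p u v x y := by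
      intro u v x y a1 a2 a3 b1 b2 q hq1 hq2
      obtain ⟨t, t', t0, t1, t0', t1', e1, e2, f0, f1⟩ := key u v x y q hq1 hq2
      exfalso
      have hx0 := h0 x (Or.inl b1)
      have hy0 := h0 y (Or.inr b2)
      rw [← a3, hx0, hy0] at e2
      push_cast at e2
      have hv1 := h1 u (Or.inl a1)
      have hv1' : (1 : ℝ) ≤ h u := by exact_mod_cast hv1
      linarith
    have c33 : ∀ u v x y, col u = 1 → col v = 2 → col x = 1 → col y = 2 → s(u, v) ≠ s(x, y) → Cross p u v x y := by
      intro u v x y a1 a2 b1 b2 hne q hq1 hq2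
      obtain ⟨t, t', t0, t1, t0', t1', e1, e2, f0, f1⟩ := key u v x y q hq1 hq2
      rw [a1, a2, b1, b2] at e1
      have hv0 := h0 v (Or.inr a2)
      have hy0 := h0 y (Or.inr b2)
      rw [hv0, hy0] at e2
      push_cast at e1 e2
      have ht : t = t' := by linarith
      subst ht
      have hvy : v = y := hinj v y (by rw [a2, b2]) (by rw [hv0, hy0])
      have f2 : (1 - t) * ((h u : ℝ) - h x) = 0 := by linarith
      rcases mul_eq_zero.1 f2 with h2 | h2
      · exact ⟨v, Or.inr rfl, Or.inr hvy, f1 (by linarith)⟩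
      · exfalso
        apply hne
        have h3 : h u = h x := by
          have : (h u : ℝ) = h x := by linarith
          exact_mod_cast this
        rw [hvy, hinj u x (by rw [a1, b1]) h3]
    have c34 : ∀ u v x y, col u = 1 → col v = 2 → col x = -2 → col y = 2 → Cross p u v x y := by
      intro u v x y a1 a2 b1 b2 q hq1 hq2
      obtain ⟨t, t', t0, t1, t0', t1', e1, e2, f0, f1⟩ := key u v x y q hq1 hq2
      have hv0 := h0 v (Or.inr a2)
      have hx0 := h0 x (Or.inl b1)
      have hy0 := h0 y (Or.inr b2)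
      have hu1 := h1 u (Or.inr a1)
      rw [hv0, hx0, hy0] at e2
      push_cast at e2
      have h2 : (1 - t) * (h u : ℝ) = 0 := by linarith
      have hu1' : (1 : ℝ) ≤ h u := by exact_mod_cast hu1
      have ht : t = 1 := by
        rcases mul_eq_zero.1 h2 with h | h
        · linarith
        · exfalso; linarith
      exact ⟨v, Or.inr rfl, Or.inr (hinj v y (by rw [a2, b2]) (by rw [hv0, hy0])), f1 ht⟩
    intro u v x y g1 g2 hne
    rcases g1 with ⟨a1, a2⟩ | ⟨a1, a2, a3⟩ | ⟨a1, a2⟩ | ⟨a1, a2⟩ <;> rcases g2 with ⟨b1, b2⟩ | ⟨b1, b2, b3⟩ | ⟨b1, b2⟩ | ⟨b1, b2⟩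
    · exact c11 u v x y a1 a2 b1 b2 hne
    · exact c12 u v x y a1 a2 b1 b2 b3
    · exact c13 u v x y a1 a2 b1 b2
    · exact c14 u v x y a1 a2 b1 b2
    · exact (c12 x y u v b1 b2 a1 a2 a3).swap3
    · exact c22 u v x y a1 a2 a3 b1 b2 b3 hne
    · exact c23 u v x y a1 a2 a3 b1 b2
    · exact c24 u v x y a1 a2 a3 b1 b2
    · exact (c13 x y u v b1 b2 a1 a2).swap3
    · exact (c23 x y u v b1 b2 b3 a1 a2).swap3
    · exact c33 u v x y a1 a2 b1 b2 hne
    · exact c34 u v x y a1 a2 b1 b2
    · exact (c14 x y u v b1 b2 a1 a2).swap3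
    · exact (c24 x y u v b1 b2 b3 a1 a2).swap3
    · exact (c34 x y u v b1 b2 a1 a2).swap3
    · exfalso
      apply hne
      rw [hinj u x (by rw [a1, b1]) (by rw [h0 u (Or.inl a1), h0 x (Or.inl b1)]),
        hinj v y (by rw [a2, b2]) (by rw [h0 v (Or.inr a2), h0 y (Or.inr b2)])]

end Pool.Agent.K1H51.BT
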