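import Mathlib
import Pool.Agent.K1H51.BT.Draw

set_option autoImplicit false

/-! The planar bipartite graphs `G j`, `j < k`, and `Lst` on `4 k + 2` vertices. -/

namespace Pool.Agent.K1H51.BT

open Pool.Agent.H239R2.Planar (HasStraightLineDrawing)

/-- the vertices -/
inductive Vt (k : ℕ) : Type
  | p (i : Fin k) : Vt k
  | q (i : Fin k) : Vt k
  | r (i : Fin k) : Vt k
  | s (i : Fin k) : Vt k
  | x : Vt k
  | y : Vt k

open Vt

variable {k : ℕ}

/-- the orientation of the pairs of groups -/
def ori (i j : Fin k) : Bool := decide ((i.val = 0 ∧ j.val + 1 = k) ∨ (j.val < i.val ∧ ¬ (i.val + 1 = k ∧ j.val = 0)))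

/-- `i` is the successor of `j` -/
def sc (i j : Fin k) : Prop := i.val = j.val + 1 ∨ (i.val = 0 ∧ j.val + 1 = k)

instance (i j : Fin k) : Decidable (sc i j) := by unfold sc; infer_instance

/-- the axis of a vertex in the drawing of `G j` -/
def onY (j : Fin k) : Vt k → Bool
  | p i => ori i j
  | q i => !ori i j
  | r i => ori i j
  | s i => !ori i j
  | x => true
  | y => true

/-- the position on the axis -/
def z (j : Fin k) : Vt k → ℤ
  | p i => if i = j then -1 else if sc i j then 4 * k + 2 else 4 * i.val + 2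
  | q i => if i = j then 4 * k + 4 else 4 * i.val + 4
  | r i => if i = j then 1 else if sc i j then -1 else 4 * i.val + 3
  | s i => if i = j then -3 else 4 * i.val + 5
  | x => 4 * k + 3
  | y => -2

/-- half of the adjacency relation of `G j` -/
def R (j : Fin k) : Vt k → Vt k → Prop
  | x, p i => sc i j
  | x, q i => i = j
  | x, _ => False
  | y, r i => sc i j
  | y, s i => i = j
  | y, _ => False
  | u, p i => i = j ∧ onY j u = true
  | u, r i => i = j ∧ onY j u = true
  | u, q i => i = j ∧ onY j u = false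
  | u, s i => i = j ∧ onY j u = false
  | _, x => False
  | _, y => False

lemma ori_self (j : Fin k) (hk : 3 ≤ k) : ori j j = false := by
  unfold ori
  rw [decide_eq_false_iff_not]
  omega

lemma ori_anti (i j : Fin k) (hk : 3 ≤ k) (h : i ≠ j) : ori j i = !ori i j := by
  have h1 : i.val ≠ j.val := fun e => h (Fin.ext e)
  have hi := i.isLt
  have hj := j.isLt
  unfold ori
  rw [← decide_not]
  apply decide_eq_decide.2
  omega

lemma ori_sc (i j : Fin k) (hk : 3 ≤ k) (h : sc i j) : ori i j = true := by
  have hi := i.isLt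
  have hj := j.isLt
  unfold sc at h
  unfold ori
  rw [decide_eq_true_iff]
  omega

/-- the graph `G j` -/
def G (j : Fin k) (hk : 3 ≤ k) : SimpleGraph (Vt k) where
  Adj u v := R j u v ∨ R j v u
  symm := ⟨fun _ _ h => Or.symm h⟩
  loopless := ⟨fun u h => by
    have h' : R j u u := by tauto
    cases u with
    | p i => obtain ⟨h1, h2⟩ := h'; subst h1; simp [onY, ori_self i hk] at h2
    | q i => obtain ⟨h1, h2⟩ := h'; subst h1; simp [onY, ori_self i hk] at h2
    | r i => obtain ⟨h1, h2⟩ := h'; subst h1; simp [onY, ori_self i hk] at h2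
    | s i => obtain ⟨h1, h2⟩ := h'; subst h1; simp [onY, ori_self i hk] at h2
    | x => exact h'
    | y => exact h'⟩

/-- half of the adjacency relation of the last graph -/
def Rl : Vt k → Vt k → Prop
  | p i, r j => i = j
  | q i, s j => i = j
  | x, r _ => True
  | x, s _ => True
  | y, p _ => True
  | y, q _ => True
  | x, y => True
  | _, _ => False

/-- the last graph -/
def Lst : SimpleGraph (Vt k) where
  Adj u v := Rl u v ∨ Rl v u
  symm := ⟨fun _ _ h => Or.symm h⟩
  loopless := ⟨fun u h => by
    have h' : Rl u u := by tauto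
    cases u <;> exact h'⟩

/-- the colouring of `G j` -/
def cl (j : Fin k) : Vt k → Bool
  | x => false
  | y => false
  | u => onY j u

lemma R_cl (j : Fin k) (hk : 3 ≤ k) (u v : Vt k) (h : R j u v) : cl j u ≠ cl j v := by
  have h0 := ori_self j hk
  cases u <;> cases v <;> simp only [R, onY, cl] at h ⊢ <;>
  first
  | (obtain ⟨h1, h2⟩ := h; subst h1; simp_all)
  | (have := ori_sc _ j hk h; simp_all)
  | (subst h; simp_all)
  | exact h.elim

theorem G_bip (j : Fin k) (hk : 3 ≤ k) : (G j hk).Colorable 2 := by
  have C : (G j hk).Coloring Bool := SimpleGraph.Coloring.mk (cl j) (by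
    intro u v h
    rcases h with h | h
    · exact R_cl j hk u v h
    · exact (R_cl j hk v u h).symm)
  have := C.colorable
  simpa using this

/-- the colouring of the last graph -/
def cll : Vt k → Bool
  | x => false
  | y => true
  | p _ => false
  | q _ => false
  | r _ => true
  | s _ => true

theorem Lst_bip : (Lst : SimpleGraph (Vt k)).Colorable 2 := by
  have C : (Lst : SimpleGraph (Vt k)).Coloring Bool := SimpleGraph.Coloring.mk cll (by
    intro u v h
    rcases h with h | h <;> cases u <;> cases v <;> simp_all [Rl, cll])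
  have := C.colorable
  simpa using this

/-- columns and heights in the drawing of the last graph -/
def col : Vt k → ℤ
  | x => -2
  | y => 2
  | r _ => -1
  | s _ => -1
  | p _ => 1
  | q _ => 1

def ht : Vt k → ℤ
  | x => 0
  | y => 0
  | r i => 2 * i.val + 1
  | s i => 2 * i.val + 2
  | p i => 2 * i.val + 1
  | q i => 2 * i.val + 2

theorem Lst_drawing : HasStraightLineDrawing (Lst : SimpleGraph (Vt k)) := by
  apply theta_drawing Lst col ht
  · intro w
    cases w with
    | p i => exact ⟨r i, Or.inl rfl⟩
    | q i => exact ⟨s i, Or.inl rfl⟩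
    | r i => exact ⟨p i, Or.inr rfl⟩
    | s i => exact ⟨q i, Or.inr rfl⟩
    | x => exact ⟨y, Or.inl trivial⟩
    | y => exact ⟨x, Or.inr trivial⟩
  · intro u v h1 h2
    cases u <;> cases v <;> simp only [col, ht, reduceCtorEq, p.injEq, q.injEq, r.injEq, s.injEq, Fin.ext_iff] at h1 h2 ⊢ <;> omega
  · intro v h
    cases v <;> simp only [col, ht] at h ⊢ <;> omega
  · intro v h
    cases v <;> simp only [col, ht] at h ⊢ <;> omega
  · intro u v h
    rcases h with h | h <;> cases u <;> cases v <;> simp only [Rl] at h <;> simp [col, ht] <;>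
      (subst h; trivial)

lemma R_adj (j : Fin k) (hk : 3 ≤ k) (u v : Vt k) (h : R j u v) :
    (onY j u = true ∧ onY j v = true ∧ (z j u = z j v + 1 ∨ z j v = z j u + 1)) ∨
    (onY j u = true ∧ onY j v = false ∧ (z j v ≤ 1 ∨ z j u = 4 * k + 4 ∨ z j u = -3)) ∨
    (onY j u = false ∧ onY j v = true ∧ (z j u ≤ 1 ∨ z j v = 4 * k + 4 ∨ z j v = -3)) := by
  have h0 := ori_self j hk
  cases v with
  | p i =>
    cases u with
    | x =>
      have h1 : sc i j := h
      have h2 : i ≠ j := by
        rintro rfl
        unfold sc at h1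
        have := i.isLt
        omega
      left
      refine ⟨rfl, ori_sc i j hk h1, Or.inl ?_⟩
      simp only [z, if_neg h2, if_pos h1]
      omega
    | y => exact h.elim
    | _ =>
      obtain ⟨h1, h2⟩ := h
      subst h1
      right; left
      exact ⟨h2, h0, Or.inl (by simp [z])⟩
  | q i =>
    cases u with
    | x =>
      have h1 : i = j := h
      subst h1
      left
      refine ⟨rfl, by simp [onY, h0], Or.inr ?_⟩
      simp only [z, if_true]
      omega
    | y => exact h.elim
    | _ =>
      obtain ⟨h1, h2⟩ := h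
      subst h1
      right; right
      exact ⟨h2, by simp [onY, h0], Or.inr (Or.inl (by simp [z]))⟩
  | r i =>
    cases u with
    | y =>
      have h1 : sc i j := h
      have h2 : i ≠ j := by
        rintro rfl
        unfold sc at h1
        have := i.isLt
        omega
      left
      refine ⟨rfl, ori_sc i j hk h1, Or.inr ?_⟩
      simp only [z, if_neg h2, if_pos h1]
      omega
    | x => exact h.elim
    | _ =>
      obtain ⟨h1, h2⟩ := h
      subst h1
      right; left
      exact ⟨h2, h0, Or.inl (by simp [z])⟩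
  | s i =>
    cases u with
    | y =>
      have h1 : i = j := h
      subst h1
      left
      refine ⟨rfl, by simp [onY, h0], Or.inl ?_⟩
      simp only [z, if_true]
      omega
    | x => exact h.elim
    | _ =>
      obtain ⟨h1, h2⟩ := h
      subst h1
      right; right
      exact ⟨h2, by simp [onY, h0], Or.inr (Or.inr (by simp [z]))⟩
  | x => cases u <;> exact h.elim
  | y => cases u <;> exact h.elim

lemma exists_pred (i : Fin k) : ∃ j : Fin k, sc i j := by
  have hi := i.isLt
  rcases Nat.eq_zero_or_pos i.val with h | h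
  · exact ⟨⟨k - 1, by omega⟩, Or.inr ⟨h, by simp only; omega⟩⟩
  · exact ⟨⟨i.val - 1, by omega⟩, Or.inl (by simp only; omega)⟩

/-- every edge is covered -/
theorem cover (hk : 3 ≤ k) (u v : Vt k) (huv : u ≠ v) : (∃ j, (G j hk).Adj u v) ∨ Lst.Adj u v := by
  have key : ∀ i i' : Fin k, (i = i' ∧ ori i i' = false) ∨ (i ≠ i' ∧ ori i i' = true ∧ ori i' i = false) ∨
      (i ≠ i' ∧ ori i i' = false ∧ ori i' i = true) := by
    intro i i'
    by_cases h : i = i'
    · exact Or.inl ⟨h, by rw [h]; exact ori_self i' hk⟩
    · have h1 := ori_anti i i' hk h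
      rcases Bool.eq_false_or_eq_true (ori i i') with h2 | h2
      · exact Or.inr (Or.inl ⟨h, h2, by rw [h1, h2]; rfl⟩)
      · exact Or.inr (Or.inr ⟨h, h2, by rw [h1, h2]; rfl⟩)
  rcases u with i | i | i | i | _ | _ <;> rcases v with i' | i' | i' | i' | _ | _ <;>
  first
    | exact absurd rfl huv
    | exact Or.inr (Or.inl trivial)
    | exact Or.inr (Or.inr trivial)
    | exact Or.inl ⟨i, Or.inl rfl⟩
    | exact Or.inl ⟨i, Or.inr rfl⟩
    | exact Or.inl ⟨i', Or.inl rfl⟩
    | exact Or.inl ⟨i', Or.inr rfl⟩
    | (obtain ⟨j, hj⟩ := exists_pred i; exact Or.inl ⟨j, Or.inl hj⟩)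
    | (obtain ⟨j, hj⟩ := exists_pred i; exact Or.inl ⟨j, Or.inr hj⟩)
    | (obtain ⟨j, hj⟩ := exists_pred i'; exact Or.inl ⟨j, Or.inl hj⟩)
    | (obtain ⟨j, hj⟩ := exists_pred i'; exact Or.inl ⟨j, Or.inr hj⟩)
    | (rcases key i i' with ⟨h1, h2⟩ | ⟨h1, h2, h3⟩ | ⟨h1, h2, h3⟩ <;>
       first
         | (subst h1; exact absurd rfl huv)
         | (subst h1; exact Or.inr (Or.inl rfl))
         | (subst h1; exact Or.inr (Or.inr rfl))
         | (refine Or.inl ⟨i', Or.inl ⟨rfl, ?_⟩⟩; simp only [onY, h2]; done)
         | (refine Or.inl ⟨i', Or.inl ⟨rfl, ?_⟩⟩; simp [onY, h2]; done)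
         | (refine Or.inl ⟨i, Or.inr ⟨rfl, ?_⟩⟩; simp [onY, h3]; done)
         | (subst h1; refine Or.inl ⟨i, Or.inr ⟨rfl, ?_⟩⟩; simp [onY, h2]; done))

theorem G_drawing (j : Fin k) (hk : 3 ≤ k) : HasStraightLineDrawing (G j hk) := by
  have h0 := ori_self j hk
  have hj := j.isLt
  apply axis_drawing (G j hk) (onY j) (z j) (4 * k + 4) (by positivity)
  · intro w
    cases w with
    | p i =>
      rcases Bool.eq_false_or_eq_true (ori i j) with h | h
      · exact ⟨p j, Or.inl ⟨rfl, h⟩⟩
      · exact ⟨q j, Or.inl ⟨rfl, h⟩⟩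
    | q i =>
      rcases Bool.eq_false_or_eq_true (ori i j) with h | h
      · exact ⟨q j, Or.inl ⟨rfl, by simp [onY, h]⟩⟩
      · exact ⟨p j, Or.inl ⟨rfl, by simp [onY, h]⟩⟩
    | r i =>
      rcases Bool.eq_false_or_eq_true (ori i j) with h | h
      · exact ⟨p j, Or.inl ⟨rfl, h⟩⟩
      · exact ⟨q j, Or.inl ⟨rfl, h⟩⟩
    | s i =>
      rcases Bool.eq_false_or_eq_true (ori i j) with h | h
      · exact ⟨q j, Or.inl ⟨rfl, by simp [onY, h]⟩⟩
      · exact ⟨p j, Or.inl ⟨rfl, by simp [onY, h]⟩⟩
    | x => exact ⟨q j, Or.inl rfl⟩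
    | y => exact ⟨s j, Or.inl rfl⟩
  · intro u v h1 h2
    rcases u with i | i | i | i | _ | _ <;> rcases v with i' | i' | i' | i' | _ | _ <;>
    (try have hi := i.isLt) <;> (try have hi' := i'.isLt) <;>
    simp only [onY, z, sc, ori, decide_eq_decide, decide_eq_true_eq, reduceCtorEq, p.injEq, q.injEq, r.injEq, s.injEq, Fin.ext_iff, ← decide_not] at h1 h2 ⊢ <;>
    (try split_ifs at h2) <;> omega
  · intro v _
    cases v with
    | p i => have hi := i.isLt; simp only [z]; split_ifs <;> omega
    | q i => have hi := i.isLt; simp only [z]; split_ifs <;> omega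
    | r i => have hi := i.isLt; simp only [z]; split_ifs <;> omega
    | s i => have hi := i.isLt; simp only [z]; split_ifs <;> omega
    | x => simp only [z]; omega
    | y => simp only [z]; omega
  · intro v hv
    cases v with
    | p i => have hi := i.isLt; simp only [z]; split_ifs <;> omega
    | q i => have hi := i.isLt; simp only [z]; split_ifs <;> omega
    | r i =>
      have hi := i.isLt
      simp only [z]
      simp only [onY] at hv
      split_ifs with a b
      · omega
      · rw [ori_sc i j hk b] at hv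
        exact absurd hv (by decide)
      · omega
    | s i =>
      have hi := i.isLt
      simp only [z]
      simp only [onY] at hv
      split_ifs with a
      · subst a
        rw [h0] at hv
        exact absurd hv (by decide)
      · omega
    | x => simp only [z]; omega
    | y => exact absurd hv (by simp [onY])
  · intro u v h
    rcases h with h | h
    · exact R_adj j hk u v h
    · rcases R_adj j hk v u h with ⟨a, b, c⟩ | ⟨a, b, c⟩ | ⟨a, b, c⟩
      · exact Or.inl ⟨b, a, c.symm⟩
      · exact Or.inr (Or.inr ⟨b, a, c⟩)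
      · exact Or.inr (Or.inl ⟨b, a, c⟩)

end Pool.Agent.K1H51.BT
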